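import Pool.Agent.T2h48.DW.Stm

/-!
SML: the theorem of Skolem-Mahler-Lech for exponential sums.
-/

set_option autoImplicit false

namespace Pool.Agent.T2h69.DW

open Pool.Agent.T2h48.DW Pool.Agent.H612.LR Polynomial

theorem common_den (S : Finset ℂ) (hS : ∀ β ∈ S, IsAlgebraic ℚ β) :
    ∃ D : ℤ, D ≠ 0 ∧ ∀ β ∈ S, IsIntegral ℤ ((D : ℂ) * β) := by
  classical
  have h1 : ∀ β : ℂ, ∃ y : ℤ, y ≠ 0 ∧ (β ∈ S → IsIntegral ℤ ((y : ℂ) * β)) := by
    intro β
    by_cases h : β ∈ S
    · have h2 : IsAlgebraic ℤ β := (IsFractionRing.isAlgebraic_iff ℤ ℚ ℂ).2 (hS β h)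
      obtain ⟨y, hy, h3⟩ := h2.exists_integral_multiple
      refine ⟨y, hy, fun _ => ?_⟩
      rwa [zsmul_eq_mul] at h3
    · exact ⟨1, one_ne_zero, fun h' => absurd h' h⟩
  choose y hy hy' using h1
  refine ⟨∏ β ∈ S, y β, Finset.prod_ne_zero_iff.2 fun β _ => hy β, fun β hβ => ?_⟩
  rw [← Finset.mul_prod_erase S y hβ, Int.cast_mul, mul_right_comm]
  exact (hy' β hβ).mul isIntegral_algebraMap

theorem t_SML : Pool.Agent.T2h48.DW.S_SML := by
  classical
  rintro W ⟨S, n, h0, halg, hW⟩ hzero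
  obtain ⟨D, hD, hint⟩ := common_den S halg
  set M : ℤ[X] := ∏ β ∈ S, minpoly ℤ ((D : ℂ) * β) with hM
  have hMm : M.Monic := monic_prod_of_monic _ _ fun β hβ => minpoly.monic (hint β hβ)
  have hM0 : ∀ β ∈ S, aeval ((D : ℂ) * β) M = 0 := by
    intro β hβ
    rw [hM, map_prod]
    exact Finset.prod_eq_zero hβ (minpoly.aeval _ _)
  set f : ℕ → ℤ := fun m => D ^ (m + 1) * W (m + 1) with hf
  have hfc : ∀ m, (f m : ℂ) = ∑ β ∈ S, (n β : ℂ) * ((D : ℂ) * β) ^ (m + 1) := by
    intro m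
    rw [hf]
    push_cast
    rw [hW (m + 1) (by omega), Finset.mul_sum]
    exact Finset.sum_congr rfl fun β _ => by rw [mul_pow]; ring
  have hrec : ∀ m, f (m + M.natDegree) = ∑ i ∈ Finset.range M.natDegree,
      (fun i => - M.coeff (M.natDegree - 1 - i)) i * f (m + M.natDegree - 1 - i) := by
    intro m
    have h1 : ∑ j ∈ Finset.range (M.natDegree + 1), M.coeff j * f (m + j) = 0 := by
      have h2 : ((∑ j ∈ Finset.range (M.natDegree + 1), M.coeff j * f (m + j) : ℤ) : ℂ) = 0 := by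
        push_cast
        simp only [hfc, Finset.mul_sum]
        rw [Finset.sum_comm]
        refine Finset.sum_eq_zero fun β hβ => ?_
        have h3 := hM0 β hβ
        rw [aeval_eq_sum_range] at h3
        have h4 : ∑ j ∈ Finset.range (M.natDegree + 1),
            (M.coeff j : ℂ) * ((n β : ℂ) * ((D : ℂ) * β) ^ (m + j + 1)) =
            (n β : ℂ) * ((D : ℂ) * β) ^ (m + 1) *
              ∑ j ∈ Finset.range (M.natDegree + 1), M.coeff j • ((D : ℂ) * β) ^ j := by
          rw [Finset.mul_sum]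
          refine Finset.sum_congr rfl fun j _ => ?_
          rw [zsmul_eq_mul, show m + j + 1 = m + 1 + j by ring, pow_add]
          ring
        rw [h4, h3, mul_zero]
      exact_mod_cast h2
    rw [Finset.sum_range_succ, hMm.coeff_natDegree, one_mul] at h1
    have h5 : ∑ i ∈ Finset.range M.natDegree,
        (fun i => - M.coeff (M.natDegree - 1 - i)) i * f (m + M.natDegree - 1 - i) =
        ∑ j ∈ Finset.range M.natDegree, - (M.coeff j * f (m + j)) := by
      rw [← Finset.sum_range_reflect (fun j => - (M.coeff j * f (m + j)))]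
      refine Finset.sum_congr rfl fun i hi => ?_
      have hi' := Finset.mem_range.1 hi
      rw [show m + M.natDegree - 1 - i = m + (M.natDegree - 1 - i) by omega]
      ring
    rw [h5, Finset.sum_neg_distrib]
    linarith
  obtain ⟨d, K, G, hBd⟩ := SML_bd f _ M.natDegree hrec
  obtain ⟨n0, T, -, hT, hz⟩ := SML_zeros f d K G 0 hBd (by
    intro N
    obtain ⟨m, hm, hm0⟩ := hzero (N + 1)
    refine ⟨m - 1, by omega, ?_⟩
    show D ^ (m - 1 + 1) * W (m - 1 + 1) = 0
    rw [show m - 1 + 1 = m by omega, hm0, mul_zero])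
  refine ⟨n0 + 1, T, by omega, hT, fun t => ?_⟩
  have h1 := hz t
  rw [hf] at h1
  rcases mul_eq_zero.1 h1 with h2 | h2
  · exact absurd h2 (pow_ne_zero _ hD)
  · rw [← h2]
    congr 1
    ring

end Pool.Agent.T2h69.DW
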