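import Pool.Agent.T2h48.DW.Stm
import Pool.Agent.N867.AS.PS

/-!
EXPS: the power sums of a rational function.
-/

set_option autoImplicit false

namespace Pool.Agent.T2h69.DW

open Pool.Agent.N867.AS Pool.Agent.T2h48.DW
open PowerSeries

/-- products of linear polynomials -/
theorem prod_X_sub (t : Multiset ℂ) (ht : ∀ r ∈ t, IsAlgebraic ℚ r) :
    ∃ (c : ℂ) (a : ℕ) (s : Multiset ℂ), c ≠ 0 ∧ (∀ l ∈ s, l ≠ 0 ∧ IsAlgebraic ℚ l) ∧
      ((t.map fun r => (X - C r : ℂ⟦X⟧)).prod) =
        C c * X ^ a * (s.map fun l => (1 - C l * X : ℂ⟦X⟧)).prod := by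
  induction t using Multiset.induction_on with
  | empty => exact ⟨1, 0, 0, one_ne_zero, by simp, by simp⟩
  | cons r t ih =>
    obtain ⟨c, a, s, hc, hs, h⟩ := ih (fun r' hr' => ht r' (Multiset.mem_cons_of_mem hr'))
    rw [Multiset.map_cons, Multiset.prod_cons, h]
    by_cases hr : r = 0
    · refine ⟨c, a + 1, s, hc, hs, ?_⟩
      rw [hr, map_zero]
      ring
    · refine ⟨-r * c, a, r⁻¹ ::ₘ s, mul_ne_zero (neg_ne_zero.2 hr) hc, ?_, ?_⟩
      · intro l hl
        rcases Multiset.mem_cons.1 hl with rfl | hl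
        · exact ⟨inv_ne_zero hr, (ht r (Multiset.mem_cons_self r t)).inv⟩
        · exact hs l hl
      · rw [Multiset.map_cons, Multiset.prod_cons]
        have h1 : (C r : ℂ⟦X⟧) * C r⁻¹ = 1 := by
          rw [← map_mul, mul_inv_cancel₀ hr, map_one]
        have h2 : (X - C r : ℂ⟦X⟧) = C (-r) * (1 - C r⁻¹ * X) := by
          rw [map_neg]
          linear_combination (-X : ℂ⟦X⟧) * h1
        rw [h2, map_mul]
        ring

theorem exists_factor (R : Polynomial ℚ) (hR : R ≠ 0) :
    ∃ (c : ℂ) (a : ℕ) (s : Multiset ℂ), c ≠ 0 ∧ (∀ l ∈ s, l ≠ 0 ∧ IsAlgebraic ℚ l) ∧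
      ((R.map (algebraMap ℚ ℂ) : Polynomial ℂ) : ℂ⟦X⟧) =
        C c * X ^ a * (s.map fun l => (1 - C l * X : ℂ⟦X⟧)).prod := by
  have h1 := (IsAlgClosed.splits (R.map (algebraMap ℚ ℂ))).eq_prod_roots
  have hl : (R.map (algebraMap ℚ ℂ)).leadingCoeff ≠ 0 := by
    rw [Ne, Polynomial.leadingCoeff_eq_zero]
    exact (Polynomial.map_ne_zero_iff (algebraMap ℚ ℂ).injective).2 hR
  obtain ⟨c, a, s, hc, hs, h⟩ := prod_X_sub (R.map (algebraMap ℚ ℂ)).roots (by
    intro r hr
    refine ⟨R, hR, ?_⟩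
    have h2 := (Polynomial.mem_roots'.1 hr).2
    rwa [Polynomial.IsRoot.def, Polynomial.eval_map_algebraMap] at h2)
  refine ⟨(R.map (algebraMap ℚ ℂ)).leadingCoeff * c, a, s, mul_ne_zero hl hc, hs, ?_⟩
  rw [map_mul, mul_assoc (C _) (C c), mul_assoc (C _), ← h]
  conv_lhs => rw [h1]
  rw [Polynomial.coe_mul, Polynomial.coe_C]
  congr 1
  generalize (R.map (algebraMap ℚ ℂ)).roots = t
  induction t using Multiset.induction_on with
  | empty => simp
  | cons r t ih =>
    rw [Multiset.map_cons, Multiset.prod_cons, Multiset.map_cons, Multiset.prod_cons,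
      Polynomial.coe_mul, ih, Polynomial.coe_sub, Polynomial.coe_X, Polynomial.coe_C]

theorem cancel_XC {U V : ℂ⟦X⟧} (hU : constantCoeff U = 1) (hV : constantCoeff V = 1) {c c' : ℂ}
    {a b : ℕ} (hc : c ≠ 0) (hc' : c' ≠ 0) (h : C c * X ^ a * U = C c' * X ^ b * V) : U = V := by
  have key : ∀ (U : ℂ⟦X⟧) (c : ℂ) (a n : ℕ), constantCoeff U = 1 →
      (n < a → coeff n (C c * X ^ a * U) = 0) ∧ coeff a (C c * X ^ a * U) = c := by
    intro U c a n hU
    rw [mul_assoc, coeff_C_mul, coeff_C_mul]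
    refine ⟨fun hn => ?_, ?_⟩
    · rw [coeff_X_pow_mul', if_neg (by omega), mul_zero]
    · rw [coeff_X_pow_mul', if_pos le_rfl, Nat.sub_self, coeff_zero_eq_constantCoeff_apply, hU,
        mul_one]
  have hab : a = b := by
    rcases lt_trichotomy a b with h1 | h1 | h1
    · have h2 := (key U c a 0 hU).2
      rw [h, (key V c' b a hV).1 h1] at h2
      exact absurd h2.symm hc
    · exact h1
    · have h2 := (key V c' b 0 hV).2
      rw [← h, (key U c a b hU).1 h1] at h2
      exact absurd h2.symm hc'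
  subst hab
  have hcc : c = c' := by
    have h2 := (key U c a 0 hU).2
    rw [h, (key V c' a 0 hV).2] at h2
    exact h2.symm
  subst hcc
  have h3 : (C c * X ^ a : ℂ⟦X⟧) ≠ 0 := by
    intro h0
    have h2 := (key U c a 0 hU).2
    rw [h0, zero_mul, map_zero] at h2
    exact hc h2.symm
  exact mul_left_cancel₀ h3 h

theorem t_EXPS : S_EXPS := by
  classical
  rintro W z ⟨hz0, hz⟩ ⟨P, Q, hQ, hPQ⟩
  set F : ℂ⟦X⟧ := PowerSeries.mk (fun n => (z n : ℂ)) with hF
  have hF0 : constantCoeff F = 1 := by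
    rw [← coeff_zero_eq_constantCoeff_apply, hF, coeff_mk, hz0, Int.cast_one]
  have hFW : HasPS F (fun m => - (W m : ℂ)) := by
    refine hasPS_of_coeff hF0 fun n hn => ?_
    have h1 := hz n (Nat.one_le_iff_ne_zero.2 hn)
    have h2 := congrArg (fun x : ℤ => (x : ℂ)) h1
    simp only [Int.cast_mul, Int.cast_natCast, Int.cast_sum] at h2
    rw [hF, coeff_mk, h2, ← Finset.sum_neg_distrib]
    refine Finset.sum_congr rfl fun j _ => ?_
    rw [coeff_mk]
    ring
  have hFPQ : F * ((Q.map (algebraMap ℚ ℂ) : Polynomial ℂ) : ℂ⟦X⟧) =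
      ((P.map (algebraMap ℚ ℂ) : Polynomial ℂ) : ℂ⟦X⟧) := by
    have h1 := congrArg (PowerSeries.map (algebraMap ℚ ℂ)) hPQ
    rw [map_mul, ← Polynomial.polynomial_map_coe, ← Polynomial.polynomial_map_coe] at h1
    rw [← h1]
    congr 1
  have hP : P ≠ 0 := by
    rintro rfl
    rw [Polynomial.map_zero, Polynomial.coe_zero] at hFPQ
    rcases mul_eq_zero.1 hFPQ with h1 | h1
    · rw [h1, map_zero] at hF0
      exact zero_ne_one hF0
    · rw [Polynomial.coe_eq_zero_iff] at h1
      exact hQ ((Polynomial.map_eq_zero_iff (algebraMap ℚ ℂ).injective).1 h1)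
  obtain ⟨c, a, s, hc, hs, hQs⟩ := exists_factor Q hQ
  obtain ⟨c', b, t, hc', ht, hPt⟩ := exists_factor P hP
  rw [hQs, hPt] at hFPQ
  have hQ1 := hasPS_multiset s
  have hP1 := hasPS_multiset t
  have h1 : F * (s.map fun l => (1 - C l * X : ℂ⟦X⟧)).prod =
      (t.map fun l => (1 - C l * X : ℂ⟦X⟧)).prod := by
    refine cancel_XC (c := c) (c' := c') (a := a) (b := b) ?_ hP1.1 hc hc' ?_
    · rw [map_mul, hF0, hQ1.1, one_mul]
    · rw [← hFPQ]
      ring
  have h2 : HasPS F (fun m => (t.map fun l => l ^ m).sum - (s.map fun l => l ^ m).sum) := by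
    refine HasPS.cancel ?_ hQ1
    rw [h1]
    exact hP1
  have h3 : pser (fun m => - (W m : ℂ)) =
      pser (fun m => (t.map fun l => l ^ m).sum - (s.map fun l => l ^ m).sum) := by
    have h4 := hFW.2
    rw [h2.2] at h4
    have h5 : F ≠ 0 := by
      intro h0
      rw [h0, map_zero] at hF0
      exact zero_ne_one hF0
    exact (mul_left_cancel₀ h5 (neg_injective h4)).symm
  refine ⟨s.toFinset ∪ t.toFinset, fun β => (s.count β : ℤ) - t.count β, ?_, ?_, ?_⟩
  · intro h0
    rcases Finset.mem_union.1 h0 with h | h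
    · exact (hs 0 (Multiset.mem_toFinset.1 h)).1 rfl
    · exact (ht 0 (Multiset.mem_toFinset.1 h)).1 rfl
  · intro β hβ
    rcases Finset.mem_union.1 hβ with h | h
    · exact (hs β (Multiset.mem_toFinset.1 h)).2
    · exact (ht β (Multiset.mem_toFinset.1 h)).2
  · intro m hm
    have h4 := congrArg (coeff m) h3
    simp only [pser, coeff_mk] at h4
    rw [if_neg (by omega), if_neg (by omega)] at h4
    have h5 : (W m : ℂ) = (s.map fun l => l ^ m).sum - (t.map fun l => l ^ m).sum := by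
      linear_combination -h4
    rw [h5, Finset.sum_multiset_map_count, Finset.sum_multiset_map_count]
    have h6 : ∑ l ∈ s.toFinset, s.count l • l ^ m =
        ∑ l ∈ s.toFinset ∪ t.toFinset, s.count l • l ^ m :=
      Finset.sum_subset Finset.subset_union_left (by
        intro l _ hl
        rw [Multiset.mem_toFinset] at hl
        rw [Multiset.count_eq_zero_of_notMem hl, zero_smul])
    have h7 : ∑ l ∈ t.toFinset, t.count l • l ^ m =
        ∑ l ∈ s.toFinset ∪ t.toFinset, t.count l • l ^ m :=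
      Finset.sum_subset Finset.subset_union_right (by
        intro l _ hl
        rw [Multiset.mem_toFinset] at hl
        rw [Multiset.count_eq_zero_of_notMem hl, zero_smul])
    rw [h6, h7, ← Finset.sum_sub_distrib]
    refine Finset.sum_congr rfl fun l _ => ?_
    push_cast
    rw [nsmul_eq_mul, nsmul_eq_mul]
    ring

end Pool.Agent.T2h69.DW
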