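import Pool.Agent.T2h48.DW.Stm

/-!
FIELD: points over extensions of finite fields.
-/

set_option autoImplicit false

namespace Pool.Agent.T2h69.DW

open Pool.Agent.N867.AS Pool.Agent.N867.AS.Res Pool.Agent.T2h48.DW Polynomial

theorem range_eq {K L : Type} [Field K] [Fintype K] [Field L] (κ : K →+* L) {Q : ℕ}
    (hQ : Fintype.card K = Q) (y : L) (hy : y ^ Q = y) : ∃ x : K, κ x = y := by
  classical
  have hQ1 : 1 < Q := hQ ▸ Fintype.one_lt_card
  have h1 : (Finset.univ.image κ) ⊆ (X ^ Q - X : L[X]).roots.toFinset := by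
    intro y hy
    rw [Finset.mem_image] at hy
    obtain ⟨z, hz, rfl⟩ := hy
    rw [Multiset.mem_toFinset, mem_roots (FiniteField.X_pow_card_sub_X_ne_zero _ hQ1)]
    simp only [IsRoot.def, eval_sub, eval_pow, eval_X, sub_eq_zero]
    rw [← map_pow, ← hQ, FiniteField.pow_card]
  have h2 : (Finset.univ.image κ).card = Q := by
    rw [Finset.card_image_of_injective _ κ.injective, Finset.card_univ, hQ]
  have h3 : ((X ^ Q - X : L[X]).roots.toFinset).card ≤ Q := by
    refine (Multiset.toFinset_card_le _).trans ((Polynomial.card_roots' _).trans ?_)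
    rw [FiniteField.X_pow_card_sub_X_natDegree_eq _ hQ1]
  have h4 := Finset.eq_of_subset_of_card_le h1 (by rw [h2]; exact h3)
  have h5 : y ∈ (X ^ Q - X : L[X]).roots.toFinset := by
    rw [Multiset.mem_toFinset, mem_roots (FiniteField.X_pow_card_sub_X_ne_zero _ hQ1)]
    simp [hy]
  rw [← h4, Finset.mem_image] at h5
  obtain ⟨z, _, hz⟩ := h5
  exact ⟨z, hz⟩

theorem t_FIELD : S_FIELD := by
  classical
  intro F _ _ n f
  let := Fintype.ofFinite F
  obtain ⟨p, hp⟩ := CharP.exists F
  obtain ⟨s, hpp, hcard⟩ := FiniteField.card F p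
  have : Fact p.Prime := ⟨hpp⟩
  let : Algebra (ZMod p) F := ZMod.algebra F p
  let : Algebra (ZMod p) (k p) := ZMod.algebra (k p) p
  have : Algebra.IsAlgebraic (ZMod p) F := inferInstance
  let : Algebra F (k p) := (IsAlgClosed.lift (R := ZMod p) (S := F) (M := k p)).toRingHom.toAlgebra
  refine ⟨p, ⟨hpp⟩, s, MvPolynomial.map (algebraMap F (k p)) f, s.2.ne', ?_, ?_⟩
  · intro μ
    rw [MvPolynomial.coeff_map, ← map_pow, ← hcard, FiniteField.pow_card]
  · intro K _ _ m hm hfin
    have : Module.Finite F K := Module.finite_of_finrank_pos (by omega)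
    have : Finite K := Module.finite_of_finite F
    let := Fintype.ofFinite K
    have hK : Fintype.card K = p ^ (s * m : ℕ) := by
      rw [Module.card_eq_pow_finrank (K := F) (V := K), hfin, hcard, ← pow_mul]
    let κ : K →ₐ[F] k p := IsAlgClosed.lift (R := F) (S := K) (M := k p)
    have hev : ∀ x : Fin n → K, MvPolynomial.eval (fun i => κ (x i)) (MvPolynomial.map
        (algebraMap F (k p)) f) = κ (MvPolynomial.aeval x f) := by
      intro x
      rw [MvPolynomial.eval_map, ← MvPolynomial.aeval_def]
      exact (MvPolynomial.comp_aeval_apply (f := x) κ f).symm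
    refine Nat.card_congr (Equiv.ofBijective (fun x => ⟨fun i => κ (x.1 i), fun i => ?_, ?_⟩)
      ⟨?_, ?_⟩)
    · rw [← map_pow, ← hK, FiniteField.pow_card]
    · rw [hev, x.2, map_zero]
    · intro x y h
      apply Subtype.ext
      funext i
      have h1 := congrFun (congrArg Subtype.val h) i
      exact κ.injective h1
    · rintro ⟨y, hy, hy0⟩
      choose x hx using fun i => range_eq (κ : K →+* k p) hK (y i) (hy i)
      have hx' : (fun i => κ (x i)) = y := funext hx
      refine ⟨⟨x, ?_⟩, ?_⟩
      · apply (κ : K →+* k p).injective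
        rw [map_zero]
        have h1 := hev x
        rw [hx', hy0] at h1
        exact h1.symm
      · apply Subtype.ext
        exact hx'

end Pool.Agent.T2h69.DW
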